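import Pool.Agent.H29.UV.KER
import Pool.Agent.H73.HV.Silver

/-!
# UV project: BR
-/

set_option autoImplicit false

open Set Filter Topology MeasureTheory

namespace Pool.Agent.H29.UV

open Pool.Agent.H72.UV Pool.Agent.H71

/-- BR -/
theorem br : T_BR := by
  intro C _ _ _ _ X hX hnP hlev hcls
  rcases X.eq_empty_or_nonempty with hem | hne
  · rw [hem]
    exact Countably.empty
  have hPol : PolishSpace (Str ℕ C) := polishSpace_str
  have hPol' : PolishSpace X := hX.polishSpace
  have hne' : Nonempty X := hne.to_subtype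
  choose D hDc hD using hlev
  -- pieces are Borel
  have hP : ∀ (m : ℕ) (d : Str ℕ C), d ∈ D m → MeasurableSet {c : X | IsoL m (c : Str ℕ C) d} := by
    intro m d hd
    have h1 : ∀ e : Str ℕ C, AnalyticSet {c : X | IsoL m (c : Str ℕ C) e} := fun e =>
      analyticSet_isoL measurable_subtype_coe measurable_const m
    refine (h1 d).measurableSet_of_compl ?_
    have h2 : {c : X | IsoL m (c : Str ℕ C) d}ᶜ =
        ⋃ e : {e | e ∈ D m ∧ ¬ IsoL m d e}, {c : X | IsoL m (c : Str ℕ C) e} := by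
      ext c
      simp only [mem_compl_iff, mem_ofPred_eq, mem_iUnion]
      constructor
      · intro h
        obtain ⟨e, he, hce⟩ := hD m c c.2
        exact ⟨⟨e, he, fun h' => h (hce.trans h'.symm)⟩, hce⟩
      · rintro ⟨⟨e, he, hde⟩, hce⟩ h
        exact hde (h.symm.trans hce)
    rw [h2]
    have : Countable {e | e ∈ D m ∧ ¬ IsoL m d e} :=
      ((hDc m).mono fun e he => he.1).to_subtype
    exact AnalyticSet.iUnion fun e => h1 e
  have hE : ∀ m, MeasurableSet {p : X × X | IsoL m (p.1 : Str ℕ C) p.2} := by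
    intro m
    have h2 : {p : X × X | IsoL m (p.1 : Str ℕ C) p.2} =
        ⋃ e ∈ D m, {c : X | IsoL m (c : Str ℕ C) e} ×ˢ {c : X | IsoL m (c : Str ℕ C) e} := by
      ext p
      simp only [mem_ofPred_eq, mem_iUnion, mem_prod]
      constructor
      · intro h
        obtain ⟨e, he, hce⟩ := hD m p.1 p.1.2
        exact ⟨e, he, hce, h.symm.trans hce⟩
      · rintro ⟨e, _, h1, h2⟩
        exact h1.trans h2.symm
    rw [h2]
    exact MeasurableSet.biUnion (hDc m) fun e he => (hP m e he).prod (hP m e he)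
  obtain ⟨φ, hφ, hφs⟩ := PolishSpace.exists_nat_nat_continuous_surjective X
  let E : Setoid (ℕ → ℕ) := {
    r := fun a b => ∀ m, IsoL m (φ a : Str ℕ C) (φ b)
    iseqv := ⟨fun a m => IsoL.refl m _, fun h m => (h m).symm, fun h h' m => (h m).trans (h' m)⟩ }
  have hEm : MeasurableSet {p : (ℕ → ℕ) × (ℕ → ℕ) | E p.1 p.2} := by
    have h2 : {p : (ℕ → ℕ) × (ℕ → ℕ) | E p.1 p.2} =
        ⋂ m, (fun p : (ℕ → ℕ) × (ℕ → ℕ) => (φ p.1, φ p.2)) ⁻¹'
          {p : X × X | IsoL m (p.1 : Str ℕ C) p.2} := by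
      ext p
      simp only [mem_ofPred_eq, mem_iInter, mem_preimage]
      rfl
    rw [h2]
    refine MeasurableSet.iInter fun m => ?_
    exact ((hφ.measurable.comp measurable_fst).prodMk (hφ.measurable.comp measurable_snd)) (hE m)
  rcases Pool.Agent.H73.HV.silver E hEm with hc | ⟨F, hF, hFE⟩
  · have h1 : Countably (⋃ q : Quotient E, {d | d ∈ X ∧ ∀ m, IsoL m d (φ q.out)}) := by
      have : Countable (Quotient E) := hc
      have hq : ∀ q : Quotient E, ∃ D' : Set (Str ℕ C), D'.Countable ∧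
          ∀ c ∈ {d | d ∈ X ∧ ∀ m, IsoL m d (φ q.out)}, ∃ d ∈ D', Iso c d := by
        intro q
        exact hcls _ (φ q.out).2
      choose D' hD'c hD' using hq
      refine ⟨⋃ q, D' q, countable_iUnion fun q => hD'c q, fun c hc => ?_⟩
      obtain ⟨q, hq⟩ := mem_iUnion.1 hc
      obtain ⟨d, hd, hcd⟩ := hD' q c hq
      exact ⟨d, mem_iUnion.2 ⟨q, hd⟩, hcd⟩
    refine h1.mono ?_
    intro c hcX
    obtain ⟨a, ha⟩ := hφs ⟨c, hcX⟩
    refine mem_iUnion.2 ⟨Quotient.mk E a, hcX, ?_⟩
    have h2 : E (Quotient.mk E a).out a := Quotient.mk_out a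
    intro m
    have h3 := (h2 m).symm
    rw [ha] at h3
    exact h3
  · exact absurd ⟨fun u => (φ (F u) : Str ℕ C),
      measurable_subtype_coe.comp (hφ.comp hF).measurable, fun u => (φ (F u)).2,
      fun u v huv h => hFE u v huv fun m => h.isoL m⟩ hnP

end Pool.Agent.H29.UV
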