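import Pool.Agent.H29.UV.KER

/-!
# UV project: FS, from closed classes to `F_σ` classes
-/

set_option autoImplicit false
set_option linter.unusedSectionVars false

open Set Filter Topology MeasureTheory

namespace Pool.Agent.H29.UV

open Pool.Agent.H72.UV Pool.Agent.H71

/-! ### relabelling -/

/-- relabelling -/
def rel {C : Type} (g : Equiv.Perm ℕ) (c : Str ℕ C) : Str ℕ C := fun l => c (l.map g)

lemma rel_rel {C : Type} (v g : Equiv.Perm ℕ) (c : Str ℕ C) : rel v (rel g c) = rel (g * v) c := by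
  funext l
  simp only [rel, List.map_map]
  rfl

lemma iso_rel {C : Type} (g : Equiv.Perm ℕ) (c : Str ℕ C) : Iso (rel g c) c := ⟨g, fun _ => rfl⟩

lemma iso_iff {C : Type} {c d : Str ℕ C} : Iso c d ↔ ∃ g, rel g d = c := by
  constructor
  · rintro ⟨g, hg⟩
    exact ⟨g, funext hg⟩
  · rintro ⟨g, rfl⟩
    exact iso_rel g d

/-! ### shifted permutations -/

/-- the permutation `u` shifted by `k` -/
def sh (k : ℕ) (u : Equiv.Perm ℕ) : Equiv.Perm ℕ where
  toFun a := if a < k then a else u (a - k) + k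
  invFun a := if a < k then a else u.symm (a - k) + k
  left_inv a := by
    by_cases h : a < k
    · simp [h]
    · have h' : ¬ u (a - k) + k < k := by omega
      simp only [h, if_false, h', Nat.add_sub_cancel, Equiv.symm_apply_apply]
      omega
  right_inv a := by
    by_cases h : a < k
    · simp [h]
    · have h' : ¬ u.symm (a - k) + k < k := by omega
      simp only [h, if_false, h', Nat.add_sub_cancel, Equiv.apply_symm_apply]
      omega

lemma sh_of_lt {k : ℕ} (u : Equiv.Perm ℕ) {a : ℕ} (h : a < k) : sh k u a = a := by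
  change (if a < k then a else u (a - k) + k) = a
  rw [if_pos h]

lemma sh_add (k : ℕ) (u : Equiv.Perm ℕ) (a : ℕ) : sh k u (a + k) = u a + k := by
  change (if a + k < k then a + k else u (a + k - k) + k) = _
  rw [if_neg (by omega), Nat.add_sub_cancel]

lemma exists_sh {k : ℕ} (v : Equiv.Perm ℕ) (hv : ∀ i < k, v i = i) : ∃ u, v = sh k u := by
  have h1 : ∀ a, k ≤ v (a + k) := by
    intro a
    by_contra h
    push Not at h
    have := v.injective (hv _ h)
    omega
  have hv' : ∀ i < k, v.symm i = i := by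
    intro i hi
    rw [Equiv.symm_apply_eq, hv i hi]
  have h2 : ∀ a, k ≤ v.symm (a + k) := by
    intro a
    by_contra h
    push Not at h
    have := v.symm.injective (hv' _ h)
    omega
  refine ⟨⟨fun a => v (a + k) - k, fun a => v.symm (a + k) - k, ?_, ?_⟩, ?_⟩
  · intro a
    have := h1 a
    simp only [Nat.sub_add_cancel (h1 a), Equiv.symm_apply_apply, Nat.add_sub_cancel]
  · intro a
    simp only [Nat.sub_add_cancel (h2 a), Equiv.apply_symm_apply, Nat.add_sub_cancel]
  · ext a
    by_cases h : a < k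
    · rw [sh_of_lt _ h, hv a h]
    · obtain ⟨b, rfl⟩ : ∃ b, a = b + k := ⟨a - k, by omega⟩
      rw [sh_add]
      change v (b + k) = v (b + k) - k + k
      have := h1 b
      omega

/-! ### recoding -/

variable {k : ℕ}

/-- fill in the entries `l` into the pattern `w` -/
def ex : List (Fin k ⊕ Unit) → List ℕ → List ℕ
  | [], _ => []
  | (Sum.inl i :: w), l => (i : ℕ) :: ex w l
  | (Sum.inr _ :: w), (a :: l) => (a + k) :: ex w l
  | (Sum.inr _ :: w), [] => ex w []

open Classical in
/-- pattern of a list -/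
noncomputable def pat (k : ℕ) (u : List ℕ) : List (Fin k ⊕ Unit) :=
  u.map fun a => if h : a < k then Sum.inl ⟨a, h⟩ else Sum.inr ()

/-- entries of a list -/
def ent (k : ℕ) (u : List ℕ) : List ℕ := (u.filter fun a => decide (k ≤ a)).map fun a => a - k

lemma ex_pat_ent (u : List ℕ) : ex (pat k u) (ent k u) = u := by
  induction u with
  | nil => rfl
  | cons a u ih =>
    by_cases h : a < k
    · have h1 : pat k (a :: u) = Sum.inl ⟨a, h⟩ :: pat k u := by
        simp [pat, h]
      have h2 : ent k (a :: u) = ent k u := by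
        have : ¬ k ≤ a := by omega
        simp [ent, this]
      rw [h1, h2]
      simp only [ex, ih]
    · have h1 : pat k (a :: u) = Sum.inr () :: pat k u := by
        simp [pat, h]
      have h2 : ent k (a :: u) = (a - k) :: ent k u := by
        have : k ≤ a := by omega
        simp [ent, this]
      rw [h1, h2]
      simp only [ex, ih]
      rw [Nat.sub_add_cancel (by omega)]

lemma ex_map (w : List (Fin k ⊕ Unit)) (l : List ℕ) (u : Equiv.Perm ℕ) :
    (ex w l).map (sh k u) = ex w (l.map u) := by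
  induction w generalizing l with
  | nil => rfl
  | cons x w ih =>
    rcases x with i | x
    · simp only [ex, List.map_cons, ih, sh_of_lt u i.2]
    · cases l with
      | nil =>
        simp only [ex, ih, List.map_nil]
      | cons a l =>
        simp only [ex, List.map_cons, ih, sh_add]

/-- recoding: constants `0, ..., k-1` -/
def R (k : ℕ) {C : Type} (c : Str ℕ C) : Str ℕ (List (Fin k ⊕ Unit) → C) := fun l w => c (ex w l)

/-- the inverse of the recoding -/
noncomputable def S (k : ℕ) {C : Type} (D : Str ℕ (List (Fin k ⊕ Unit) → C)) : Str ℕ C :=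
  fun u => D (ent k u) (pat k u)

lemma S_R {C : Type} (c : Str ℕ C) : S k (R k c) = c := by
  funext u
  simp only [S, R, ex_pat_ent]

lemma R_rel {C : Type} (u : Equiv.Perm ℕ) (c : Str ℕ C) : R k (rel (sh k u) c) = rel u (R k c) := by
  funext l w
  simp only [R, rel, ex_map]

section

variable {C : Type} [TopologicalSpace C]

lemma continuous_R : Continuous (R k : Str ℕ C → Str ℕ (List (Fin k ⊕ Unit) → C)) := by
  refine continuous_pi fun l => continuous_pi fun w => ?_
  exact continuous_apply (ex w l)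

lemma continuous_S : Continuous (S k : Str ℕ (List (Fin k ⊕ Unit) → C) → Str ℕ C) := by
  refine continuous_pi fun u => ?_
  exact (continuous_apply (pat k u)).comp (continuous_apply (ent k u))

lemma continuous_rel (g : Equiv.Perm ℕ) : Continuous (rel g : Str ℕ C → Str ℕ C) :=
  continuous_pi fun l => continuous_apply (l.map g)

attribute [local instance] permTop polishSpace_perm

lemma continuous_rel_left (c : Str ℕ C) : Continuous fun g : Equiv.Perm ℕ => rel g c := by
  refine continuous_pi fun l => ?_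
  have h : Continuous fun g : Equiv.Perm ℕ => c (l.map g) := by
    rw [continuous_def]
    intro s _
    have : (fun g : Equiv.Perm ℕ => c (l.map g)) ⁻¹' s =
        ⋃ w : {w : List ℕ // c w ∈ s}, {g : Equiv.Perm ℕ | l.map g = (w : List ℕ)} := by
      ext g
      simp only [mem_preimage, mem_iUnion, mem_ofPred_eq]
      constructor
      · intro h
        exact ⟨⟨_, h⟩, rfl⟩
      · rintro ⟨⟨w, hw⟩, h⟩
        rw [h]
        exact hw
    rw [this]
    exact isOpen_iUnion fun w => isOpen_map_eq l w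
  exact h

/-- the part of `F` invariant under the stabiliser of `0, ..., k-1` -/
def Fk (F : Set (Str ℕ C)) (k : ℕ) : Set (Str ℕ C) :=
  {c | ∀ v : Equiv.Perm ℕ, (∀ i < k, v i = i) → rel v c ∈ F}

lemma isClosed_Fk {F : Set (Str ℕ C)} (hF : IsClosed F) (k : ℕ) : IsClosed (Fk F k) := by
  have : Fk F k = ⋂ v : Equiv.Perm ℕ, ⋂ _ : ∀ i < k, v i = i, rel v ⁻¹' F := by
    ext c
    simp [Fk]
  rw [this]
  exact isClosed_iInter fun v => isClosed_iInter fun _ => hF.preimage (continuous_rel v)

lemma Fk_subset (F : Set (Str ℕ C)) (k : ℕ) : Fk F k ⊆ F := by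
  intro c hc
  have := hc 1 fun _ _ => rfl
  have h : rel 1 c = c := by
    funext l
    simp [rel]
  rwa [h] at this

lemma rel_mem_Fk {F : Set (Str ℕ C)} {k : ℕ} {c : Str ℕ C} (hc : c ∈ Fk F k) {g : Equiv.Perm ℕ}
    (hg : ∀ i < k, g i = i) : rel g c ∈ Fk F k := by
  intro v hv
  rw [rel_rel]
  refine hc _ fun i hi => ?_
  rw [Equiv.Perm.mul_apply, hv i hi, hg i hi]

/-- Baire category -/
lemma exists_mem_Fk {X : Set (Str ℕ C)} (hX : H72.UV.Inv X) {F : ℕ → Set (Str ℕ C)}
    (hF : ∀ n, IsClosed (F n)) (hXF : X = ⋃ n, F n) {c : Str ℕ C} (hc : c ∈ X) :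
    ∃ (g : Equiv.Perm ℕ) (n k : ℕ), rel g c ∈ Fk (F n) k := by
  have h1 : ∀ n, IsClosed {g : Equiv.Perm ℕ | rel g c ∈ F n} := fun n =>
    (hF n).preimage (continuous_rel_left c)
  have h2 : (⋃ n, {g : Equiv.Perm ℕ | rel g c ∈ F n}) = univ := by
    ext g
    simp only [mem_iUnion, mem_ofPred_eq, mem_univ, iff_true]
    have : rel g c ∈ X := hX c hc g
    rw [hXF] at this
    exact mem_iUnion.1 this
  obtain ⟨n, g, hg⟩ := nonempty_interior_of_iUnion_of_closed h1 h2
  refine ⟨g, n, ?_⟩
  by_contra hno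
  push Not at hno
  have h3 : ∀ k, ∃ v : Equiv.Perm ℕ, (∀ i < k, v i = i) ∧ rel v (rel g c) ∉ F n := by
    intro k
    have := hno k
    simp only [Fk, mem_ofPred_eq, not_forall] at this
    obtain ⟨v, hv, hv'⟩ := this
    exact ⟨v, hv, hv'⟩
  choose v hv hvF using h3
  have h4 : Tendsto (fun k => g * v k) atTop (𝓝 g) := by
    refine tendsto_perm ?_ ?_
    · intro a
      filter_upwards [eventually_gt_atTop a] with k hk
      rw [Equiv.Perm.mul_apply, hv k a hk]
    · intro a
      filter_upwards [eventually_gt_atTop (g.symm a)] with k hk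
      rw [Equiv.symm_apply_eq, Equiv.Perm.mul_apply, hv k _ hk, Equiv.apply_symm_apply]
  obtain ⟨k, hk⟩ := (h4.eventually (isOpen_interior.mem_nhds hg)).exists
  apply hvF k
  rw [rel_rel]
  have hk' : g * v k ∈ {g : Equiv.Perm ℕ | rel g c ∈ F n} := interior_subset hk
  exact hk'

end

/-- FS -/
theorem fs : T_FS := by
  intro hcl C _ _ _ _ X hXF hX
  obtain ⟨F, hF, hXF⟩ := hXF
  by_cases hcount : ∀ n k, Countably (Fk (F n) k)
  · left
    have hu : Countably (⋃ p : ℕ × ℕ, Fk (F p.1) p.2) := Countably.iUnion fun p => hcount p.1 p.2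
    obtain ⟨D, hD, hD'⟩ := hu
    refine ⟨D, hD, fun c hc => ?_⟩
    obtain ⟨g, n, k, hg⟩ := exists_mem_Fk hX hF hXF hc
    obtain ⟨d, hd, hcd⟩ := hD' _ (mem_iUnion.2 ⟨(n, k), hg⟩)
    exact ⟨d, hd, (iso_rel g c).symm.trans hcd⟩
  right
  push Not at hcount
  obtain ⟨n, k, hnk⟩ := hcount
  set X' : Set (Str ℕ (List (Fin k ⊕ Unit) → C)) := {D | R k (S k D) = D ∧ S k D ∈ Fk (F n) k}
    with hX'
  have hpol : PolishSpace (List (Fin k ⊕ Unit) → C) := by
    have h1 : SecondCountableTopology (List (Fin k ⊕ Unit) → C) := inferInstance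
    have h2 : TopologicalSpace.IsCompletelyMetrizableSpace (List (Fin k ⊕ Unit) → C) := inferInstance
    exact { h1, h2 with }
  have hX'c : IsClosed X' := by
    refine IsClosed.inter ?_ ?_
    · exact isClosed_eq (continuous_R.comp continuous_S) continuous_id
    · exact (isClosed_Fk (hF n) k).preimage continuous_S
  have hX'i : H72.UV.Inv X' := by
    rintro D ⟨hD1, hD2⟩ g
    change rel g D ∈ X'
    have h1 : rel g D = R k (rel (sh k g) (S k D)) := by
      rw [R_rel, hD1]
    rw [h1]
    refine ⟨by rw [S_R], ?_⟩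
    rw [S_R]
    exact rel_mem_Fk hD2 fun i hi => sh_of_lt g hi
  rcases hcl (List (Fin k ⊕ Unit) → C) X' hX'c hX'i with hc | hp
  · exfalso
    apply hnk
    obtain ⟨D, hD, hD'⟩ := hc
    refine ⟨S k '' D, hD.image _, fun c hc => ?_⟩
    have h1 : R k c ∈ X' := ⟨by rw [S_R], by rw [S_R]; exact hc⟩
    obtain ⟨d, hd, hcd⟩ := hD' _ h1
    refine ⟨S k d, ⟨d, hd, rfl⟩, ?_⟩
    obtain ⟨g, hg⟩ := iso_iff.1 hcd.symm
    rw [← R_rel] at hg
    rw [← hg, S_R]
    exact (iso_rel _ _).symm
  · obtain ⟨f, hf, hfX, hfn⟩ := hp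
    set h : (ℕ → Bool) → Str ℕ C := fun x => S k (f x) with hh
    have hhm : Measurable h := continuous_S.measurable.comp hf
    have hRh : ∀ x, R k (h x) = f x := fun x => (hfX x).1
    have hhX : ∀ x, h x ∈ X := by
      intro x
      rw [hXF]
      exact mem_iUnion.2 ⟨n, Fk_subset _ _ (hfX x).2⟩
    have hsec : ∀ x, {y | (x, y) ∈ {p : (ℕ → Bool) × (ℕ → Bool) | Iso (h p.1) (h p.2)}}.Countable := by
      intro x
      have hsub : {y | (x, y) ∈ {p : (ℕ → Bool) × (ℕ → Bool) | Iso (h p.1) (h p.2)}} ⊆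
          ⋃ κ : Fin k → ℕ, {y | ∃ g : Equiv.Perm ℕ, rel g (h y) = h x ∧
            ∀ i : Fin k, g.symm i = κ i} := by
        intro y hy
        obtain ⟨g, hg⟩ := iso_iff.1 hy
        exact mem_iUnion.2 ⟨fun i => g.symm i, g, hg, fun _ => rfl⟩
      refine Countable.mono hsub (countable_iUnion fun κ => ?_)
      refine Set.Subsingleton.countable ?_
      rintro y ⟨g, hg, hgκ⟩ y' ⟨g', hg', hgκ'⟩
      by_contra hne
      apply hfn y y' hne
      have h1 : h y = rel (g' * g⁻¹) (h y') := by
        rw [← rel_rel, hg', ← hg, rel_rel, mul_inv_cancel]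
        funext l
        simp [rel]
      have h2 : ∀ i < k, (g' * g⁻¹) i = i := by
        intro i hi
        have e1 : g⁻¹ i = κ ⟨i, hi⟩ := hgκ ⟨i, hi⟩
        have e2 : g'.symm i = κ ⟨i, hi⟩ := hgκ' ⟨i, hi⟩
        rw [Equiv.Perm.mul_apply, e1, ← e2, Equiv.apply_symm_apply]
      obtain ⟨u, hu⟩ := exists_sh _ h2
      rw [hu] at h1
      rw [← hRh, ← hRh, h1, R_rel]
      exact iso_rel _ _
    have hRa : AnalyticSet {p : (ℕ → Bool) × (ℕ → Bool) | Iso (h p.1) (h p.2)} :=
      analyticSet_iso (hhm.comp measurable_fst) (hhm.comp measurable_snd)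
    obtain ⟨q, hq, -, hqR⟩ := DST.exists_perfect_of_countable_sections hRa hsec
    exact ⟨fun u => h (q u), hhm.comp hq.measurable, fun u => hhX _, fun u v huv => hqR u v huv⟩

end Pool.Agent.H29.UV
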