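import Pool.Agent.H72.UV.Targets
import Pool.Agent.H72.UV.Basic

/-!
# UV project: HULL
-/

set_option autoImplicit false

open Set Filter Topology

namespace Pool.Agent.H29.UV

open Pool.Agent.H72.UV

lemma exists_map_of_mem_range {α β : Type*} (a : α → β) (l : List β) (h : ∀ x ∈ l, x ∈ range a) :
    ∃ l' : List α, l'.map a = l := by
  induction l with
  | nil => exact ⟨[], rfl⟩
  | cons x l ih =>
    obtain ⟨l', hl'⟩ := ih fun y hy => h y (List.mem_cons_of_mem _ hy)
    obtain ⟨y, hy⟩ := h x List.mem_cons_self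
    exact ⟨y :: l', by rw [List.map_cons, hl', hy]⟩

/-- HULL -/
theorem hull : T_HULL := by
  intro C _ _ c hc d hd F
  classical
  -- enumeration of `F`
  obtain ⟨n, a, ha, hF⟩ : ∃ (n : ℕ) (a : Fin n → ℕ), Function.Injective a ∧
      ∀ x, x ∈ F ↔ x ∈ range a := by
    refine ⟨F.card, fun i => (F.equivFin.symm i : ℕ), ?_, ?_⟩
    · intro i j hij
      exact F.equivFin.symm.injective (Subtype.ext hij)
    · intro x
      constructor
      · intro hx
        exact ⟨F.equivFin ⟨x, hx⟩, by simp⟩
      · rintro ⟨i, rfl⟩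
        exact (F.equivFin.symm i).2
  -- some injective tuple has the type of `a`
  have key : ∃ x : Fin n → ℕ, Function.Injective x ∧
      ∀ l : List (Fin n), c (l.map x) = d (l.map a) := by
    by_contra hno
    push Not at hno
    set T : Set (List (Fin n) → C) :=
      {t | ∃ x : Fin n → ℕ, Function.Injective x ∧ t = fun l => c (l.map x)} with hT
    have hTfin : T.Finite := (hc n).subset (by
      rintro t ⟨x, _, rfl⟩
      exact ⟨x, rfl⟩)
    have hl : ∀ t : List (Fin n) → C, t ∈ T → ∃ l : List (Fin n), t l ≠ d (l.map a) := by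
      rintro t ⟨x, hx, rfl⟩
      exact hno x hx
    choose! L hL using hl
    set U : Set (Str ℕ C) := ⋂ t ∈ T, {d' | d' ((L t).map a) ≠ t (L t)} with hU
    have hUo : IsOpen U := by
      refine hTfin.isOpen_biInter fun t _ => ?_
      exact isOpen_ne.preimage (continuous_apply ((L t).map a))
    have hdU : d ∈ U := by
      rw [hU, mem_iInter₂]
      intro t ht
      exact fun h => hL t ht h.symm
    obtain ⟨d', hd'U, g, hg⟩ := mem_closure_iff.1 hd U hUo hdU
    rw [hU, mem_iInter₂] at hd'U
    have hmem : (fun l : List (Fin n) => c (l.map (g ∘ a))) ∈ T :=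
      ⟨g ∘ a, g.injective.comp ha, rfl⟩
    apply hd'U _ hmem
    rw [← hg, List.map_map]
  obtain ⟨x, hx, hxd⟩ := key
  refine ⟨Function.extend a x id, ?_, ?_⟩
  · intro y hy z hz hyz
    obtain ⟨i, rfl⟩ := (hF y).1 hy
    obtain ⟨j, rfl⟩ := (hF z).1 hz
    rw [ha.extend_apply, ha.extend_apply] at hyz
    rw [hx hyz]
  · intro l hl
    obtain ⟨l', rfl⟩ := exists_map_of_mem_range a l fun y hy => (hF y).1 (hl y hy)
    rw [List.map_map, ← hxd]
    congr 2
    funext i
    exact ha.extend_apply _ _ i

end Pool.Agent.H29.UV
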