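import Pool.Agent.H29.UV.Tools

/-!
# UV project: KER
-/

set_option autoImplicit false

open Set Filter Topology MeasureTheory

namespace Pool.Agent.H29.UV

open Pool.Agent.H72.UV Pool.Agent.H71

lemma Countably.union {C : Type} {X Y : Set (Str ℕ C)} (hX : Countably X) (hY : Countably Y) :
    Countably (X ∪ Y) := by
  obtain ⟨D, hD, h⟩ := hX
  obtain ⟨E, hE, h'⟩ := hY
  refine ⟨D ∪ E, hD.union hE, ?_⟩
  rintro c (hc | hc)
  · obtain ⟨d, hd, h1⟩ := h c hc
    exact ⟨d, Or.inl hd, h1⟩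
  · obtain ⟨d, hd, h1⟩ := h' c hc
    exact ⟨d, Or.inr hd, h1⟩

lemma Countably.singleton {C : Type} (c : Str ℕ C) : Countably {c} :=
  ⟨{c}, countable_singleton c, fun d hd => ⟨c, rfl, by rw [mem_singleton_iff.1 hd]; exact Iso.refl c⟩⟩

lemma Countably.empty {C : Type} : Countably (∅ : Set (Str ℕ C)) :=
  ⟨∅, countable_empty, fun _ hc => hc.elim⟩

lemma Countably.biUnion {C ι : Type} {I : Set ι} (hI : I.Countable) {X : ι → Set (Str ℕ C)}
    (h : ∀ i ∈ I, Countably (X i)) : Countably (⋃ i ∈ I, X i) := by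
  have : Countable I := hI.to_subtype
  have h1 : Countably (⋃ i : I, X i) := Countably.iUnion fun i => h i i.2
  exact h1.mono (by
    intro c hc
    obtain ⟨i, hi, hc⟩ := mem_iUnion₂.1 hc
    exact mem_iUnion.2 ⟨⟨i, hi⟩, hc⟩)

/-- KER -/
theorem ker : T_KER := by
  intro C _ _ _ _ X hX hInv hnP hcl
  have hPol : PolishSpace (Str ℕ C) := polishSpace_str
  set 𝓑 := TopologicalSpace.countableBasis (Str ℕ C) with h𝓑
  have hBc : 𝓑.Countable := TopologicalSpace.countable_countableBasis _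
  have hBb := TopologicalSpace.isBasis_countableBasis (Str ℕ C)
  set I : Set (Set (Str ℕ C)) := {b | b ∈ 𝓑 ∧ Countably (b ∩ X)} with hI
  have hIc : I.Countable := hBc.mono fun b hb => hb.1
  set U : Set (Str ℕ C) := ⋃ b ∈ I, b with hU
  have hUo : IsOpen U := isOpen_biUnion fun b hb => hBb.isOpen hb.1
  set X' := X \ U with hX'
  have hX'c : IsClosed X' := hX.sdiff hUo
  have hdiff : Countably (U ∩ X) := by
    refine (Countably.biUnion hIc (X := fun b => b ∩ X) fun b hb => hb.2).mono ?_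
    rintro c ⟨hcU, hcX⟩
    obtain ⟨b, hb, hc⟩ := mem_iUnion₂.1 hcU
    exact mem_iUnion₂.2 ⟨b, hb, hc, hcX⟩
  -- nonempty open subsets of `X'` meet uncountably many classes
  have hbig : ∀ b ∈ 𝓑, (b ∩ X').Nonempty → ¬ Countably (b ∩ X') := by
    rintro b hb ⟨c, hcb, hcX⟩ hcount
    have hbI : b ∈ I := by
      have hcu : Countably ((b ∩ X') ∪ (U ∩ X)) := Countably.union hcount hdiff
      refine ⟨hb, hcu.mono ?_⟩
      rintro d ⟨hdb, hdX⟩
      by_cases hdU : d ∈ U
      · exact Or.inr ⟨hdU, hdX⟩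
      · exact Or.inl ⟨hdb, hdX, hdU⟩
    exact hcX.2 (mem_iUnion₂.2 ⟨b, hbI, hcb⟩)
  rcases X'.eq_empty_or_nonempty with hem | hne
  · refine hdiff.mono ?_
    intro c hc
    by_contra h
    have : c ∈ X' := ⟨hc, fun hcU => h ⟨hcU, hc⟩⟩
    rw [hem] at this
    exact this
  exfalso
  have hPol' : PolishSpace X' := hX'c.polishSpace
  have hne' : Nonempty X' := hne.to_subtype
  have hPerf : PerfectSpace X' := by
    constructor
    rw [preperfect_iff_nhds]
    intro x _ V hV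
    rw [nhds_subtype_eq_comap, mem_comap] at hV
    obtain ⟨W, hW, hWV⟩ := hV
    obtain ⟨b, hb, hxb, hbW⟩ := hBb.mem_nhds_iff.1 hW
    by_contra hno
    push Not at hno
    apply hbig b hb ⟨x, hxb, x.2⟩
    refine (Countably.singleton (x : Str ℕ C)).mono ?_
    rintro y ⟨hyb, hyX⟩
    have h1 := hno ⟨y, hyX⟩ ⟨hWV (hbW hyb), mem_univ _⟩
    exact mem_singleton_iff.2 (congrArg Subtype.val h1)
  have hmeas : Measurable fun p : X' × X' => (p.1 : Str ℕ C) :=
    measurable_subtype_coe.comp measurable_fst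
  have hmeas' : Measurable fun p : X' × X' => (p.2 : Str ℕ C) :=
    measurable_subtype_coe.comp measurable_snd
  have hR : AnalyticSet {p : X' × X' | Iso (p.1 : Str ℕ C) (p.2 : Str ℕ C)} :=
    analyticSet_iso hmeas hmeas'
  by_cases hmg : ∀ x : X', IsMeagre {y : X' | (x, y) ∈ {p : X' × X' | Iso (p.1 : Str ℕ C) p.2}}
  · obtain ⟨f, hf, -, hfR⟩ := DST.exists_perfect_of_meagre_sections hR hmg
    exact hnP ⟨fun u => (f u : Str ℕ C), measurable_subtype_coe.comp hf.measurable,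
      fun u => (f u).2.1, fun u v huv => hfR u v huv⟩
  · push Not at hmg
    obtain ⟨c, hc⟩ := hmg
    -- not nowhere dense
    have hnd : ¬ IsNowhereDense {y : X' | Iso (c : Str ℕ C) y} := fun h => hc h.isMeagre
    rw [IsNowhereDense, ← Ne, ← nonempty_iff_ne_empty] at hnd
    obtain ⟨x, hx⟩ := hnd
    rw [mem_interior_iff_mem_nhds, nhds_subtype_eq_comap, mem_comap] at hx
    obtain ⟨W, hW, hWV⟩ := hx
    obtain ⟨b, hb, hxb, hbW⟩ := hBb.mem_nhds_iff.1 hW
    apply hbig b hb ⟨x, hxb, x.2⟩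
    refine (hcl c c.2.1).mono ?_
    rintro y ⟨hyb, hyX⟩
    have h1 : (⟨y, hyX⟩ : X') ∈ closure {y : X' | Iso (c : Str ℕ C) y} := hWV (hbW hyb)
    rw [closure_subtype] at h1
    refine closure_mono ?_ h1
    rintro _ ⟨z, hz, rfl⟩
    exact Iso.symm hz

end Pool.Agent.H29.UV
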