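import Pool.Agent.H29.UV.Tools

/-!
# UV project: PM
-/

set_option autoImplicit false

open Set Filter Topology MeasureTheory

namespace Pool.Agent.H29.UV

open Pool.Agent.H72.UV Pool.Agent.H71

/-- finite partial injections extend to permutations -/
lemma exists_perm_extend (E : Finset ℕ) (f : ℕ → ℕ) (hf : Set.InjOn f E) :
    ∃ σ : Equiv.Perm ℕ, ∀ a ∈ E, σ a = f a := by
  classical
  induction E using Finset.induction_on with
  | empty => exact ⟨1, fun a ha => absurd ha (Finset.notMem_empty a)⟩
  | insert a E ha ih =>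
    obtain ⟨σ, hσ⟩ := ih (hf.mono (by simp))
    refine ⟨Equiv.swap (σ a) (f a) * σ, fun b hb => ?_⟩
    rw [Equiv.Perm.mul_apply]
    rcases Finset.mem_insert.1 hb with rfl | hb'
    · exact Equiv.swap_apply_left _ _
    · have hne : b ≠ a := fun h => ha (h ▸ hb')
      rw [Equiv.swap_apply_of_ne_of_ne]
      · exact hσ b hb'
      · exact fun h => hne (σ.injective h)
      · rw [hσ b hb']
        exact fun h => hne (hf (by simp [hb']) (by simp) h)

/-- membership in a closed set of structures -/
lemma mem_of_finite_agree {C : Type} [TopologicalSpace C] {X : Set (Str ℕ C)} (hX : IsClosed X)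
    (d : Str ℕ C) (h : ∀ I : Finset (List ℕ), ∃ c ∈ X, ∀ l ∈ I, c l = d l) : d ∈ X := by
  by_contra hd
  obtain ⟨I, u, hu, huX⟩ := isOpen_pi_iff.1 hX.isOpen_compl d hd
  obtain ⟨c, hc, hcd⟩ := h I
  refine huX (a := c) ?_ hc
  intro l hl
  rw [hcd l hl]
  exact (hu l hl).2

/-- membership in a closed invariant set -/
lemma mem_of_below {C : Type} [TopologicalSpace C] {X : Set (Str ℕ C)} (hX : IsClosed X)
    (hI : H72.UV.Inv X) {c : Str ℕ C} (hc : c ∈ X) {d : Str ℕ C} (h : Below d c) : d ∈ X := by
  classical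
  refine mem_of_finite_agree hX d fun I => ?_
  set F : Finset ℕ := I.biUnion fun l => l.toFinset with hF
  obtain ⟨f, hf, hfe⟩ := h F
  obtain ⟨g, hg⟩ := exists_perm_extend F f hf
  refine ⟨_, hI c hc g, fun l hl => ?_⟩
  have hlF : ∀ x ∈ l, x ∈ F := fun x hx =>
    Finset.mem_biUnion.2 ⟨l, hl, List.mem_toFinset.2 hx⟩
  have : l.map g = l.map f := List.map_congr_left fun x hx => hg x (hlF x hx)
  rw [this]
  exact hfe l hlF

/-- measurable enumeration of infinite subsets of `ℕ` -/
lemma measurable_nth {X : Type} [MeasurableSpace X] (B : X → Set ℕ)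
    (hB : ∀ n, MeasurableSet {x | n ∈ B x}) (hinf : ∀ x, (B x).Infinite) (n : ℕ) :
    Measurable fun x => Nat.nth (· ∈ B x) n := by
  classical
  have hcount : ∀ k, Measurable fun x => Nat.count (· ∈ B x) k := by
    intro k
    induction k with
    | zero => simp
    | succ k ih =>
      simp only [Nat.count_succ]
      refine ih.add ?_
      exact Measurable.ite (hB k) measurable_const measurable_const
  refine measurable_to_countable' fun k => ?_
  have : (fun x => Nat.nth (· ∈ B x) n) ⁻¹' {k} =
      {x | k ∈ B x} ∩ {x | Nat.count (· ∈ B x) k = n} := by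
    ext x
    simp only [mem_preimage, mem_singleton_iff, mem_inter_iff, mem_ofPred_eq]
    constructor
    · rintro rfl
      exact ⟨Nat.nth_mem_of_infinite (hinf x) n, Nat.count_nth_of_infinite (hinf x) n⟩
    · rintro ⟨h1, rfl⟩
      exact Nat.nth_count h1
  rw [this]
  exact (hB k).inter ((hcount k) (measurableSet_singleton n))

lemma measurableSet_map_eq' {X A : Type} [MeasurableSpace X] (μ : X → ℕ → A)
    (h : ∀ n a, MeasurableSet {x | μ x n = a}) (l : List ℕ) (w : List A) :
    MeasurableSet {x | l.map (μ x) = w} := by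
  induction l generalizing w with
  | nil =>
    by_cases h : [] = w
    · subst h
      simp
    · simp [h]
  | cons a l ih =>
    cases w with
    | nil => simp
    | cons b w =>
      have : {x | (a :: l).map (μ x) = b :: w} = {x | μ x a = b} ∩ {x | l.map (μ x) = w} := by
        ext g
        simp
      rw [this]
      exact (h a b).inter (ih w)

/-- PM -/
theorem pm : T_PM := by
  classical
  intro C _ _ _ _ X hX hInv c hcX hmany
  obtain ⟨A, hA, e, K, B, hbel, hBm, hBinf, hKB, hcount⟩ := hmany
  obtain ⟨ι, hι⟩ := hA.exists_injective_nat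
  have hneA : Nonempty A := by
    obtain ⟨a, _⟩ := (hBinf fun _ => true).nonempty
    exact ⟨a⟩
  set α : ℕ → A := Function.invFun ι with hα
  have hαι : ∀ a, α (ι a) = a := Function.leftInverse_invFun hι
  set B' : (ℕ → Bool) → Set ℕ := fun x => ι '' (B x) with hB'
  have hB'inf : ∀ x, (B' x).Infinite := fun x => (hBinf x).image hι.injOn
  have hB'm : ∀ n, MeasurableSet {x | n ∈ B' x} := by
    intro n
    have : {x | n ∈ B' x} = ⋃ a : A, {x | a ∈ B x} ∩ {x | ι a = n} := by
      ext x
      simp [B']
    rw [this]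
    exact MeasurableSet.iUnion fun a => (hBm a).inter (MeasurableSet.const _)
  set μ : (ℕ → Bool) → ℕ → A := fun x n => α (Nat.nth (· ∈ B' x) n) with hμ
  have hμm : ∀ n a, MeasurableSet {x | μ x n = a} := by
    intro n a
    exact (measurable_nth B' hB'm hB'inf n) (MeasurableSet.of_discrete (s := {k | α k = a}))
  have hμB : ∀ x n, μ x n ∈ B x := by
    intro x n
    obtain ⟨a, ha, ha'⟩ := Nat.nth_mem_of_infinite (hB'inf x) n
    have : μ x n = a := (congrArg α ha').symm.trans (hαι a)
    rw [this]
    exact ha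
  have hμinj : ∀ x, Function.Injective (μ x) := by
    intro x n n' h
    obtain ⟨a, ha, ha'⟩ := Nat.nth_mem_of_infinite (hB'inf x) n
    obtain ⟨b, hb, hb'⟩ := Nat.nth_mem_of_infinite (hB'inf x) n'
    have h1 : μ x n = a := (congrArg α ha').symm.trans (hαι a)
    have h2 : μ x n' = b := (congrArg α hb').symm.trans (hαι b)
    have hab : a = b := by rw [← h1, ← h2, h]
    rw [hab] at ha'
    exact Nat.nth_injective (hB'inf x) (ha'.symm.trans hb')
  have hμsurj : ∀ x, ∀ a ∈ B x, ∃ n, μ x n = a := by
    intro x a ha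
    have h1 : ι a ∈ B' x := ⟨a, ha, rfl⟩
    refine ⟨Nat.count (· ∈ B' x) (ι a), ?_⟩
    change α (Nat.nth (· ∈ B' x) (Nat.count (· ∈ B' x) (ι a))) = a
    rw [Nat.nth_count h1, hαι]
  set Φ : (ℕ → Bool) → Str ℕ C := fun x l => e (l.map (μ x)) with hΦ
  have hΦm : Measurable Φ := by
    refine measurable_pi_lambda _ fun l => ?_
    intro s _
    have : (fun x => Φ x l) ⁻¹' s = ⋃ w : {w : List A // e w ∈ s}, {x | l.map (μ x) = w} := by
      ext x
      simp only [mem_preimage, mem_iUnion, mem_ofPred_eq, hΦ]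
      constructor
      · intro h
        exact ⟨⟨_, h⟩, rfl⟩
      · rintro ⟨⟨w, hw⟩, h⟩
        rw [h]
        exact hw
    rw [this]
    exact MeasurableSet.iUnion fun w => measurableSet_map_eq' μ hμm l w
  have hΦX : ∀ x, Φ x ∈ X := by
    intro x
    refine mem_of_below hX hInv hcX ?_
    exact hbel.comap (hμinj x)
  have hsec : ∀ x, {y | (x, y) ∈ {p : (ℕ → Bool) × (ℕ → Bool) | Iso (Φ p.1) (Φ p.2)}}.Countable := by
    intro x
    have hsub : {y | (x, y) ∈ {p : (ℕ → Bool) × (ℕ → Bool) | Iso (Φ p.1) (Φ p.2)}} ⊆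
        ⋃ κ : K → ℕ, {y | ∃ g : Equiv.Perm ℕ, (∀ l, Φ y (l.map g) = Φ x l) ∧
          ∀ k : K, μ y (g (κ k)) = k} := by
      rintro y ⟨g, hg⟩
      have h1 : ∀ k : K, ∃ n, μ y n = k := fun k => hμsurj y k (hKB y k.2)
      choose κ hκ using h1
      refine mem_iUnion.2 ⟨fun k => g.symm (κ k), g, hg, fun k => ?_⟩
      rw [Equiv.apply_symm_apply]
      exact hκ k
    refine Countable.mono hsub (countable_iUnion fun κ => ?_)
    by_cases hne : ∃ y0, ∃ g : Equiv.Perm ℕ, (∀ l, Φ y0 (l.map g) = Φ x l) ∧
          ∀ k : K, μ y0 (g (κ k)) = k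
    · obtain ⟨y0, g0, hg0, hκ0⟩ := hne
      refine (hcount y0).mono ?_
      rintro y ⟨g, hg, hκ⟩
      have hinv : ∀ n, Function.invFun (μ y0) (μ y0 n) = n :=
        Function.leftInverse_invFun (hμinj y0)
      refine ⟨fun a => μ y (g (g0.symm (Function.invFun (μ y0) a))), ⟨⟨?_, ?_, ?_⟩, ?_⟩, ?_⟩
      · intro a _
        exact hμB y _
      · intro a ha b hb hab
        obtain ⟨n, rfl⟩ := hμsurj y0 a ha
        obtain ⟨n', rfl⟩ := hμsurj y0 b hb
        have h1 := g0.symm.injective (g.injective (hμinj y hab))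
        rw [hinv, hinv] at h1
        rw [h1]
      · intro b hb
        obtain ⟨n, rfl⟩ := hμsurj y b hb
        refine ⟨μ y0 (g0 (g.symm n)), hμB y0 _, ?_⟩
        change μ y (g (g0.symm (Function.invFun (μ y0) (μ y0 (g0 (g.symm n)))))) = μ y n
        rw [hinv, Equiv.symm_apply_apply, Equiv.apply_symm_apply]
      · intro l hl
        have hl' : l = (l.map (Function.invFun (μ y0))).map (μ y0) := by
          rw [List.map_map]
          conv_lhs => rw [← List.map_id l]
          refine List.map_congr_left fun a ha => ?_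
          obtain ⟨n, rfl⟩ := hμsurj y0 a (hl a ha)
          simp only [Function.comp_apply, id, hinv]
        set w := (l.map (Function.invFun (μ y0))).map g0.symm with hw
        have e1 : l.map (fun a => μ y (g (g0.symm (Function.invFun (μ y0) a)))) =
            (w.map g).map (μ y) := by
          rw [hw, List.map_map, List.map_map, List.map_map]
          rfl
        have e2 : l = (w.map g0).map (μ y0) := by
          conv_lhs => rw [hl']
          rw [hw]
          congr 1
          rw [List.map_map, List.map_map]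
          refine List.map_congr_left fun a _ => ?_
          simp
        have h1 := hg w
        have h2 := hg0 w
        calc e (l.map (fun a => μ y (g (g0.symm (Function.invFun (μ y0) a))))) 
            = e ((w.map g).map (μ y)) := by rw [e1]
          _ = Φ x w := h1
          _ = e ((w.map g0).map (μ y0)) := h2.symm
          _ = e l := by rw [← e2]
      · intro k hk
        change μ y (g (g0.symm (Function.invFun (μ y0) k))) = k
        have h1 : μ y0 (g0 (κ ⟨k, hk⟩)) = k := hκ0 ⟨k, hk⟩
        have h2 : μ y (g (κ ⟨k, hk⟩)) = k := hκ ⟨k, hk⟩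
        have h3 : Function.invFun (μ y0) k = g0 (κ ⟨k, hk⟩) := by
          conv_lhs => rw [← h1]
          exact hinv _
        rw [h3, Equiv.symm_apply_apply]
        exact h2
    · have : {y | ∃ g : Equiv.Perm ℕ, (∀ l, Φ y (l.map g) = Φ x l) ∧
          ∀ k : K, μ y (g (κ k)) = k} = ∅ := by
        ext y
        simp only [mem_ofPred_eq, mem_empty_iff_false, iff_false]
        exact fun h => hne ⟨y, h⟩
      rw [this]
      exact countable_empty
  have hR : AnalyticSet {p : (ℕ → Bool) × (ℕ → Bool) | Iso (Φ p.1) (Φ p.2)} :=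
    analyticSet_iso (hΦm.comp measurable_fst) (hΦm.comp measurable_snd)
  obtain ⟨h, hh, -, hhR⟩ := DST.exists_perfect_of_countable_sections hR hsec
  exact ⟨fun u => Φ (h u), hΦm.comp hh.measurable, fun u => hΦX _, fun u v huv => hhR u v huv⟩

end Pool.Agent.H29.UV
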