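import Pool.Agent.H72.UV.Targets
import Pool.Agent.H72.UV.Basic
import Pool.Agent.H71.CC
import Pool.Agent.H71.PermTop

/-!
# UV project: measurability of isomorphism
-/

set_option autoImplicit false
set_option linter.unusedSectionVars false

open Set Filter Topology MeasureTheory

namespace Pool.Agent.H29.UV

open Pool.Agent.H72.UV Pool.Agent.H71

attribute [local instance] permTop polishSpace_perm isTopologicalGroup_perm permMeas borelSpace_perm

variable {C : Type} [TopologicalSpace C] [PolishSpace C] [MeasurableSpace C] [BorelSpace C]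

lemma polishSpace_str : PolishSpace (Str ℕ C) := by
  have h1 : SecondCountableTopology (Str ℕ C) := inferInstance
  have h2 : TopologicalSpace.IsCompletelyMetrizableSpace (Str ℕ C) := inferInstance
  exact { h1, h2 with }

lemma borelSpace_str : BorelSpace (Str ℕ C) := inferInstance

lemma isOpen_map_eq (l w : List ℕ) : IsOpen {g : Equiv.Perm ℕ | l.map g = w} := by
  induction l generalizing w with
  | nil =>
    by_cases h : [] = w
    · subst h
      simp
    · simp [h]
  | cons a l ih =>
    cases w with
    | nil => simp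
    | cons b w =>
      have : {g : Equiv.Perm ℕ | (a :: l).map g = b :: w} =
          {g : Equiv.Perm ℕ | g a = b} ∩ {g : Equiv.Perm ℕ | l.map g = w} := by
        ext g
        simp
      rw [this]
      exact (isOpen_apply_eq a b).inter (ih w)

lemma measurableSet_map_eq (l w : List ℕ) :
    MeasurableSet {g : Equiv.Perm ℕ | l.map g = w} := (isOpen_map_eq l w).measurableSet

lemma measurableSet_rel (l : List ℕ) :
    MeasurableSet {p : (Str ℕ C × Str ℕ C) × Equiv.Perm ℕ | p.1.2 (l.map p.2) = p.1.1 l} := by
  have h : {p : (Str ℕ C × Str ℕ C) × Equiv.Perm ℕ | p.1.2 (l.map p.2) = p.1.1 l} =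
      ⋃ w : List ℕ, {p | l.map p.2 = w} ∩ {p | p.1.2 w = p.1.1 l} := by
    ext p
    simp only [mem_ofPred_eq, mem_iUnion, mem_inter_iff]
    constructor
    · intro h
      exact ⟨_, rfl, h⟩
    · rintro ⟨w, rfl, h⟩
      exact h
  rw [h]
  refine MeasurableSet.iUnion fun w => ?_
  refine MeasurableSet.inter (measurable_snd (measurableSet_map_eq l w)) ?_
  have hd : MeasurableSet {q : C × C | q.1 = q.2} := isClosed_diagonal.measurableSet
  have hm : Measurable fun p : (Str ℕ C × Str ℕ C) × Equiv.Perm ℕ => (p.1.2 w, p.1.1 l) :=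
    (((measurable_pi_apply w).comp (measurable_snd.comp measurable_fst))).prodMk
      ((measurable_pi_apply l).comp (measurable_fst.comp measurable_fst))
  exact hm hd

/-- pullbacks of isomorphism are analytic -/
lemma analyticSet_rel {X : Type} [TopologicalSpace X] [PolishSpace X] [MeasurableSpace X]
    [BorelSpace X] {f f' : X → Str ℕ C} (hf : Measurable f) (hf' : Measurable f')
    (P : List ℕ → Prop) :
    AnalyticSet {x : X | ∃ g : Equiv.Perm ℕ, ∀ l, P l → f' x (l.map g) = f x l} := by
  have hM : MeasurableSet {p : X × Equiv.Perm ℕ | ∀ l, P l → f' p.1 (l.map p.2) = f p.1 l} := by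
    have h1 : {p : X × Equiv.Perm ℕ | ∀ l, P l → f' p.1 (l.map p.2) = f p.1 l} =
        ⋂ l : List ℕ, ⋂ _ : P l, {p | f' p.1 (l.map p.2) = f p.1 l} := by
      ext p
      simp
    rw [h1]
    refine MeasurableSet.iInter fun l => MeasurableSet.iInter fun _ => ?_
    have hm : Measurable fun p : X × Equiv.Perm ℕ => ((f p.1, f' p.1), p.2) :=
      ((hf.comp measurable_fst).prodMk (hf'.comp measurable_fst)).prodMk measurable_snd
    exact hm (measurableSet_rel l)
  have : StandardBorelSpace (Equiv.Perm ℕ) := inferInstance
  exact DST.analyticSet_proj hM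

lemma analyticSet_iso {X : Type} [TopologicalSpace X] [PolishSpace X] [MeasurableSpace X]
    [BorelSpace X] {f f' : X → Str ℕ C} (hf : Measurable f) (hf' : Measurable f') :
    AnalyticSet {x : X | Iso (f x) (f' x)} := by
  have := analyticSet_rel hf hf' (fun _ => True)
  simpa [Iso] using this

lemma analyticSet_isoL {X : Type} [TopologicalSpace X] [PolishSpace X] [MeasurableSpace X]
    [BorelSpace X] {f f' : X → Str ℕ C} (hf : Measurable f) (hf' : Measurable f') (m : ℕ) :
    AnalyticSet {x : X | IsoL m (f x) (f' x)} :=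
  analyticSet_rel hf hf' (fun l => l.length ≤ m)

end Pool.Agent.H29.UV
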